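import Pool.Agent.Helper55_CCC.KeyRing

/-!
# Finite quotients of finitely generated linear groups with prescribed homothetic
restriction to unipotent abelian subgroups
-/

set_option autoImplicit false

namespace Pool.Agent.CuspCov

open Matrix

/-- dual family of a linearly independent family of matrices -/
theorem dualFamily {m κ : Type} [Fintype m] [DecidableEq m] [Fintype κ]
    (X : κ → Matrix m m ℝ) (hX : LinearIndependent ℝ X) :
    ∃ Y : κ → Matrix m m ℝ, ∀ (a : κ → ℝ) (j : κ),
      a j = ∑ p, ∑ q, Y j p q * (∑ k, a k • X k) p q := by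
  classical
  let f : (κ → ℝ) →ₗ[ℝ] Matrix m m ℝ := Fintype.linearCombination ℝ X
  have hf : LinearMap.ker f = ⊥ := by
    rw [LinearMap.ker_eq_bot']
    intro a ha
    have h1 : ∑ k, a k • X k = 0 := by simpa [f, Fintype.linearCombination_apply] using ha
    ext k
    exact (Fintype.linearIndependent_iff.mp hX) a h1 k
  obtain ⟨g, hg⟩ := LinearMap.exists_leftInverse_of_injective f hf
  refine ⟨fun j => Matrix.of fun p q => g (Matrix.single p q 1) j, ?_⟩
  intro a j
  have h1 : g (f a) = a := by
    have := LinearMap.congr_fun hg a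
    simpa using this
  have h2 : f a = ∑ k, a k • X k := by simp [f, Fintype.linearCombination_apply]
  set W := ∑ k, a k • X k with hW
  have h3 : W = ∑ p, ∑ q, W p q • (Matrix.single p q (1 : ℝ) : Matrix m m ℝ) := by
    conv_lhs => rw [Matrix.matrix_eq_sum_single W]
    refine Finset.sum_congr rfl fun p _ => Finset.sum_congr rfl fun q _ => ?_
    rw [Matrix.smul_single, smul_eq_mul, mul_one]
  have h4 : a j = g W j := by rw [← h2, h1]
  rw [h4]
  conv_lhs => rw [h3]
  rw [map_sum, Finset.sum_apply]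
  refine Finset.sum_congr rfl fun p _ => ?_
  rw [map_sum, Finset.sum_apply]
  refine Finset.sum_congr rfl fun q _ => ?_
  rw [map_smul, Pi.smul_apply, smul_eq_mul, mul_comm]
  rfl

theorem core {G : Type} [Group G] (hG : Group.FG G) {m : Type} [Fintype m] [DecidableEq m]
    (ρ : G →* Matrix m m ℝ) {ι κ : Type} [Fintype ι] [Fintype κ]
    (X : ι → κ → Matrix m m ℝ) (hX : ∀ i, LinearIndependent ℝ (X i)) :
    ∃ D : ℕ, 0 < D ∧ ∀ t : ℕ, 0 < t → Nat.Coprime t D →
      ∃ N : Subgroup G, N.Normal ∧ N.FiniteIndex ∧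
        ∀ (i : ι) (g : G) (a : κ → ℤ) (Z : Matrix m m ℝ), Z = ∑ j, (a j : ℝ) • X i j →
          Z * Z * Z = 0 → ρ g = 1 + Z + (1/2 : ℝ) • (Z * Z) →
          (g ∈ N ↔ ∀ j, (t : ℤ) ∣ a j) := by
  classical
  obtain ⟨T, hT⟩ := hG.out
  choose Y hY using fun i => dualFamily (X i) (hX i)
  -- the finite set of reals
  let S : Finset ℝ :=
    (T.biUnion fun s => Finset.univ.image fun pq : m × m => ρ s pq.1 pq.2) ∪
    (T.biUnion fun s => Finset.univ.image fun pq : m × m => ρ s⁻¹ pq.1 pq.2) ∪
    (Finset.univ.image fun x : ι × κ × m × m => X x.1 x.2.1 x.2.2.1 x.2.2.2) ∪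
    (Finset.univ.image fun x : ι × κ × m × m => Y x.1 x.2.1 x.2.2.1 x.2.2.2) ∪ {1/2}
  let B : Subring ℝ := Subring.closure (S : Set ℝ)
  have hS1 : ∀ s ∈ T, ∀ p q, ρ s p q ∈ B := by
    intro s hs p q
    apply Subring.subset_closure
    simp only [S, Finset.coe_union, Set.mem_union, Finset.mem_coe]
    left; left; left; left
    exact Finset.mem_biUnion.mpr ⟨s, hs, Finset.mem_image.mpr ⟨(p, q), Finset.mem_univ _, rfl⟩⟩
  have hS2 : ∀ s ∈ T, ∀ p q, ρ s⁻¹ p q ∈ B := by
    intro s hs p q
    apply Subring.subset_closure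
    simp only [S, Finset.coe_union, Set.mem_union, Finset.mem_coe]
    left; left; left; right
    exact Finset.mem_biUnion.mpr ⟨s, hs, Finset.mem_image.mpr ⟨(p, q), Finset.mem_univ _, rfl⟩⟩
  have hS3 : ∀ i j p q, X i j p q ∈ B := by
    intro i j p q
    apply Subring.subset_closure
    simp only [S, Finset.coe_union, Set.mem_union, Finset.mem_coe]
    left; left; right
    exact Finset.mem_image.mpr ⟨(i, j, p, q), Finset.mem_univ _, rfl⟩
  have hS4 : ∀ i j p q, Y i j p q ∈ B := by
    intro i j p q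
    apply Subring.subset_closure
    simp only [S, Finset.coe_union, Set.mem_union, Finset.mem_coe]
    left; right
    exact Finset.mem_image.mpr ⟨(i, j, p, q), Finset.mem_univ _, rfl⟩
  have hS5 : (1/2 : ℝ) ∈ B := by
    apply Subring.subset_closure
    simp only [S, Finset.coe_union, Set.mem_union, Finset.mem_coe]
    right
    exact Finset.mem_singleton.mpr rfl
  -- all entries lie in B
  have hGB : ∀ g : G, (∀ p q, ρ g p q ∈ B) ∧ (∀ p q, ρ g⁻¹ p q ∈ B) := by
    intro g
    have hg : g ∈ Subgroup.closure (T : Set G) := by rw [hT]; exact Subgroup.mem_top g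
    induction hg using Subgroup.closure_induction with
    | mem x hx => exact ⟨hS1 x hx, hS2 x hx⟩
    | one =>
      have h1 : ∀ p q, (1 : Matrix m m ℝ) p q ∈ B := by
        intro p q
        rw [Matrix.one_apply]
        split_ifs
        · exact B.one_mem
        · exact B.zero_mem
      rw [inv_one, map_one]
      exact ⟨h1, h1⟩
    | mul x y hx hy h1 h2 =>
      refine ⟨fun p q => ?_, fun p q => ?_⟩
      · rw [map_mul, Matrix.mul_apply]
        exact B.sum_mem fun k _ => B.mul_mem (h1.1 p k) (h2.1 k q)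
      · rw [_root_.mul_inv_rev, map_mul, Matrix.mul_apply]
        exact B.sum_mem fun k _ => B.mul_mem (h2.2 p k) (h1.2 k q)
    | inv x hx h1 => exact ⟨h1.2, by rw [inv_inv]; exact h1.1⟩
  let incl : Matrix m m B →+* Matrix m m ℝ := B.subtype.mapMatrix
  have hincl : Function.Injective incl := by
    intro x y hxy
    ext p q
    have := congrFun (congrFun hxy p) q
    simpa [incl, RingHom.mapMatrix_apply] using this
  have hincl_apply : ∀ (M : Matrix m m B) p q, incl M p q = (M p q : ℝ) := fun M p q => rfl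
  let F0 : G → Matrix m m B := fun g => Matrix.of fun p q => ⟨ρ g p q, (hGB g).1 p q⟩
  have hF0 : ∀ g, incl (F0 g) = ρ g := fun g => rfl
  let ρB : G →* Matrix m m B :=
    { toFun := F0
      map_one' := by
        apply hincl
        rw [hF0, map_one, map_one]
      map_mul' := fun x y => by
        apply hincl
        rw [map_mul, hF0, hF0, hF0, map_mul] }
  have hρB : ∀ g, incl (ρB g) = ρ g := fun g => rfl
  let XB : ι → κ → Matrix m m B := fun i j => Matrix.of fun p q => ⟨X i j p q, hS3 i j p q⟩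
  have hXB : ∀ i j, incl (XB i j) = X i j := fun i j => rfl
  let YB : ι → κ → Matrix m m B := fun i j => Matrix.of fun p q => ⟨Y i j p q, hS4 i j p q⟩
  let HB : Matrix m m B := Matrix.diagonal fun _ => ⟨1/2, hS5⟩
  have hHB : incl HB = Matrix.diagonal fun _ => (1/2 : ℝ) := by
    ext p q
    rw [hincl_apply]
    simp only [HB, Matrix.diagonal_apply]
    split_ifs
    · rfl
    · rfl
  have hHBmul : ∀ M : Matrix m m ℝ, incl HB * M = (1/2 : ℝ) • M := by
    intro M
    rw [hHB]
    ext p q
    rw [Matrix.diagonal_mul, Matrix.smul_apply, smul_eq_mul]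
  obtain ⟨D, hD, hkey⟩ := keyRing S
  refine ⟨D, hD, ?_⟩
  intro t ht htD
  obtain ⟨R, hRring, hRfin, θ, hθ⟩ := hkey t ht htD
  let θM : Matrix m m B →+* Matrix m m R := θ.mapMatrix
  let φ : G →* Matrix m m R := (θM : Matrix m m B →* Matrix m m R).comp ρB
  have hφ : ∀ g, φ g = θM (ρB g) := fun g => rfl
  let N : Subgroup G := (φ.toHomUnits).ker
  have hN : ∀ g, g ∈ N ↔ φ g = 1 := by
    intro g
    rw [MonoidHom.mem_ker, Units.ext_iff]
    rfl
  have hfin : Finite (Matrix m m R) := inferInstance
  have hfinU : Finite (Matrix m m R)ˣ := inferInstance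
  have hNfin : N.FiniteIndex := by
    have : Finite (φ.toHomUnits).range := inferInstance
    exact Subgroup.finiteIndex_ker _
  refine ⟨N, MonoidHom.normal_ker _, hNfin, ?_⟩
  intro i g a Z hZ hZ3 hρ
  let ZB : Matrix m m B := ∑ j, a j • XB i j
  have hZB : incl ZB = Z := by
    simp only [ZB, map_sum, map_zsmul, hXB]
    rw [hZ]
    refine Finset.sum_congr rfl fun j _ => ?_
    rw [← Int.cast_smul_eq_zsmul ℝ]
  have hg1 : ρB g = 1 + ZB + HB * (ZB * ZB) := by
    apply hincl
    rw [hρB, map_add, map_add, map_one, map_mul, map_mul, hZB, hHBmul, hρ]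
  have hg2 : ZB = (ρB g - 1) - HB * ((ρB g - 1) * (ρB g - 1)) := by
    apply hincl
    rw [map_sub, map_sub, map_one, map_mul, map_mul, map_sub, map_one, hρB, hZB, hHBmul, hρ]
    have e1 : (1 + Z + (1/2 : ℝ) • (Z * Z)) - 1 = Z + (1/2 : ℝ) • (Z * Z) := by abel
    rw [e1]
    have e2 : (Z + (1/2 : ℝ) • (Z * Z)) * (Z + (1/2 : ℝ) • (Z * Z)) = Z * Z := by
      have e3 : Z * (Z * Z) = 0 := by rw [← mul_assoc]; exact hZ3
      rw [mul_add, add_mul, add_mul, Matrix.mul_smul, Matrix.smul_mul, Matrix.smul_mul,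
        Matrix.mul_smul, e3, hZ3, mul_assoc Z Z (Z * Z), e3]
      simp
    rw [e2]
    abel
  rw [hN, hφ]
  constructor
  · intro h1 j
    have h2 : θM ZB = 0 := by
      rw [hg2, map_sub, map_sub, map_one, map_mul, map_mul, map_sub, map_one, h1]
      simp
    rw [← hθ]
    have h3 : ((a j : ℤ) : B) = ∑ p, ∑ q, YB i j p q * ZB p q := by
      have h4 : (a j : ℝ) = ∑ p, ∑ q, Y i j p q * Z p q := by
        have := hY i (fun k => (a k : ℝ)) j
        rw [← hZ] at this
        exact this
      have h5 : B.subtype (((a j : ℤ) : B)) = B.subtype (∑ p, ∑ q, YB i j p q * ZB p q) := by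
        rw [map_intCast, h4, map_sum]
        refine Finset.sum_congr rfl fun p _ => ?_
        rw [map_sum]
        refine Finset.sum_congr rfl fun q _ => ?_
        rw [map_mul]
        have h6 : B.subtype (ZB p q) = Z p q := by
          rw [← hZB]; rfl
        rw [h6]
        rfl
      exact Subtype.val_injective h5
    rw [h3, map_sum]
    refine Finset.sum_eq_zero fun p _ => ?_
    rw [map_sum]
    refine Finset.sum_eq_zero fun q _ => ?_
    have h7 : θ (ZB p q) = 0 := by
      have := congrFun (congrFun h2 p) q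
      exact this
    rw [map_mul, h7, mul_zero]
  · intro h1
    have h2 : θM ZB = 0 := by
      simp only [ZB, map_sum, map_zsmul]
      refine Finset.sum_eq_zero fun j _ => ?_
      ext p q
      rw [Matrix.smul_apply, Matrix.zero_apply]
      have h3 : ((a j : ℤ) : R) = 0 := by
        have := (hθ (a j)).mpr (h1 j)
        rwa [map_intCast] at this
      rw [zsmul_eq_mul, h3, zero_mul]
    rw [hg1, map_add, map_add, map_one, map_mul, map_mul, h2]
    simp

end Pool.Agent.CuspCov
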