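import Pool.Agent.Helper55_CCC.SRing

/-!
# Finite quotients of linear groups which are integral outside `s`
-/

set_option autoImplicit false

namespace Pool.Agent.CuspCov

open Matrix

/-- Gram duality: a linearly independent family of real matrices, and its Gram determinant -/
theorem gramDet {m κ : Type} [Fintype m] [DecidableEq m] [Fintype κ] [DecidableEq κ]
    (W : κ → Matrix m m ℝ) (hW : LinearIndependent ℝ W) :
    (Matrix.of fun j k => ∑ p, ∑ q, W j p q * W k p q).det ≠ 0 := by
  classical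
  let A : Matrix (m × m) κ ℝ := Matrix.of fun pq k => W k pq.1 pq.2
  have hA : Function.Injective A.mulVec := by
    intro a b hab
    have h1 : A *ᵥ (a - b) = 0 := by rw [Matrix.mulVec_sub, hab, sub_self]
    have h2 : ∑ k, (a - b) k • W k = 0 := by
      ext p q
      have h3 := congrFun h1 (p, q)
      rw [Matrix.sum_apply]
      simp only [Matrix.mulVec, dotProduct, A, Matrix.of_apply] at h3
      rw [Matrix.zero_apply]
      rw [show (0 : m × m → ℝ) (p, q) = 0 from rfl] at h3
      rw [← h3]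
      refine Finset.sum_congr rfl fun k _ => ?_
      rw [Matrix.smul_apply, smul_eq_mul, mul_comm]
    have h4 := (Fintype.linearIndependent_iff.mp hW) (a - b) h2
    ext k
    have := h4 k
    simpa [sub_eq_zero] using this
  have hpd := Matrix.PosDef.conjTranspose_mul_self A hA
  have h5 : (Matrix.of fun j k => ∑ p, ∑ q, W j p q * W k p q) = Aᴴ * A := by
    ext j k
    rw [Matrix.mul_apply, Fintype.sum_prod_type]
    refine Finset.sum_congr rfl fun p _ => Finset.sum_congr rfl fun q _ => ?_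
    simp [A, Matrix.conjTranspose_apply]
  rw [h5]
  exact hpd.det_pos.ne'

theorem coreS {G : Type} [Group G] (hG : Group.FG G) {m : Type} [Fintype m] [DecidableEq m]
    (ρ : G →* Matrix m m ℝ) (s : ℕ) (hs : 0 < s) (hint : ∀ g p q, SInt s (ρ g p q))
    {ι κ : Type} [Fintype ι] [Fintype κ] [DecidableEq κ]
    (X : ι → κ → Matrix m m ℝ) (hX : ∀ i, LinearIndependent ℝ (X i))
    (hXg : ∀ i j, ∃ g, X i j * X i j * X i j = 0 ∧
      ρ g = 1 + X i j + (1/2 : ℝ) • (X i j * X i j)) :
    ∃ L : ι → Set (κ → ℤ), ∀ t : ℕ, 0 < t → Nat.Coprime t s →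
      ∃ N : Subgroup G, N.Normal ∧ N.FiniteIndex ∧
        ∀ (i : ι) (g : G) (a : κ → ℤ) (Z : Matrix m m ℝ), Z = ∑ j, (a j : ℝ) • X i j →
          Z * Z * Z = 0 → ρ g = 1 + Z + (1/2 : ℝ) • (Z * Z) →
          (g ∈ N ↔ ∃ b ∈ L i, ∀ j, a j = t * b j) := by
  classical
  obtain ⟨T, hT⟩ := hG.out
  -- the finite set of reals
  let S : Finset ℝ :=
    (T.biUnion fun s => Finset.univ.image fun pq : m × m => ρ s pq.1 pq.2) ∪
    (T.biUnion fun s => Finset.univ.image fun pq : m × m => ρ s⁻¹ pq.1 pq.2) ∪ {(s : ℝ)⁻¹}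
  have hSint : ∀ x ∈ S, SInt s x := by
    intro x hx
    simp only [S, Finset.mem_union, Finset.mem_biUnion, Finset.mem_image, Finset.mem_univ,
      true_and, Finset.mem_singleton] at hx
    rcases hx with (⟨g, _, pq, rfl⟩ | ⟨g, _, pq, rfl⟩) | rfl
    · exact hint _ _ _
    · exact hint _ _ _
    · exact SInt.inv hs
  have hSs : (s : ℝ)⁻¹ ∈ S := by simp [S]
  set B := Algebra.adjoin ℤ (S : Set ℝ) with hBdef
  have hS1 : ∀ s ∈ T, ∀ p q, ρ s p q ∈ B := by
    intro s hs p q
    apply Algebra.subset_adjoin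
    simp only [S, Finset.coe_union, Set.mem_union, Finset.mem_coe]
    left; left
    exact Finset.mem_biUnion.mpr ⟨s, hs, Finset.mem_image.mpr ⟨(p, q), Finset.mem_univ _, rfl⟩⟩
  have hS2 : ∀ s ∈ T, ∀ p q, ρ s⁻¹ p q ∈ B := by
    intro s hs p q
    apply Algebra.subset_adjoin
    simp only [S, Finset.coe_union, Set.mem_union, Finset.mem_coe]
    left; right
    exact Finset.mem_biUnion.mpr ⟨s, hs, Finset.mem_image.mpr ⟨(p, q), Finset.mem_univ _, rfl⟩⟩
  -- all entries lie in B
  have hGB : ∀ g : G, (∀ p q, ρ g p q ∈ B) ∧ (∀ p q, ρ g⁻¹ p q ∈ B) := by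
    intro g
    have hg : g ∈ Subgroup.closure (T : Set G) := by rw [hT]; exact Subgroup.mem_top g
    induction hg using Subgroup.closure_induction with
    | mem x hx => exact ⟨hS1 x hx, hS2 x hx⟩
    | one =>
      have h1 : ∀ p q, (1 : Matrix m m ℝ) p q ∈ B := by
        intro p q
        rw [Matrix.one_apply]
        split_ifs
        · exact B.one_mem
        · exact B.zero_mem
      rw [inv_one, map_one]
      exact ⟨h1, h1⟩
    | mul x y hx hy h1 h2 =>
      refine ⟨fun p q => ?_, fun p q => ?_⟩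
      · rw [map_mul, Matrix.mul_apply]
        exact B.sum_mem fun k _ => B.mul_mem (h1.1 p k) (h2.1 k q)
      · rw [_root_.mul_inv_rev, map_mul, Matrix.mul_apply]
        exact B.sum_mem fun k _ => B.mul_mem (h2.2 p k) (h1.2 k q)
    | inv x hx h1 => exact ⟨h1.2, by rw [inv_inv]; exact h1.1⟩
  -- matrices with entries in B
  let MB : Subring (Matrix m m ℝ) := (B.val : B →+* ℝ).mapMatrix.range
  have hMB : ∀ M : Matrix m m ℝ, M ∈ MB ↔ ∀ p q, M p q ∈ B := by
    intro M
    constructor
    · rintro ⟨M', rfl⟩ p q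
      exact (M' p q).2
    · intro h
      exact ⟨Matrix.of fun p q => ⟨M p q, h p q⟩, rfl⟩
  have hρMB : ∀ g, ρ g ∈ MB := fun g => (hMB _).mpr (hGB g).1
  -- doubled logarithms
  have hW : ∀ i j, (2 : ℝ) • X i j ∈ MB := by
    intro i j
    obtain ⟨g, h3, hg⟩ := hXg i j
    have e1 : (2 : ℝ) • X i j = (ρ g - 1) + (ρ g - 1) - (ρ g - 1) * (ρ g - 1) := by
      rw [hg]
      have e0 : (1 + X i j + (1/2 : ℝ) • (X i j * X i j)) - 1
          = X i j + (1/2 : ℝ) • (X i j * X i j) := by abel
      rw [e0]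
      have e2 : (X i j + (1/2 : ℝ) • (X i j * X i j)) * (X i j + (1/2 : ℝ) • (X i j * X i j))
          = X i j * X i j := by
        have e3 : X i j * (X i j * X i j) = 0 := by rw [← mul_assoc]; exact h3
        rw [mul_add, add_mul, add_mul, Matrix.mul_smul, Matrix.smul_mul, Matrix.smul_mul,
          Matrix.mul_smul, e3, h3, mul_assoc (X i j) (X i j) (X i j * X i j), e3]
        simp
      rw [e2]
      ext p q
      simp only [Matrix.smul_apply, Matrix.sub_apply, Matrix.add_apply, smul_eq_mul]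
      ring
    rw [e1]
    have h1 : ρ g - 1 ∈ MB := MB.sub_mem (hρMB g) MB.one_mem
    exact MB.sub_mem (MB.add_mem h1 h1) (MB.mul_mem h1 h1)
  let W : ι → κ → Matrix m m ℝ := fun i j => (2 : ℝ) • X i j
  have hWi : ∀ i, LinearIndependent ℝ (W i) := by
    intro i
    rw [Fintype.linearIndependent_iff]
    intro a ha k
    have h1 : ∑ k, (2 * a k) • X i k = 0 := by
      rw [← ha]
      refine Finset.sum_congr rfl fun k _ => ?_
      simp only [W, smul_smul]
      rw [mul_comm]
    have h2 := (Fintype.linearIndependent_iff.mp (hX i)) _ h1 k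
    linarith
  let Gr : ι → Matrix κ κ ℝ := fun i => Matrix.of fun j k => ∑ p, ∑ q, W i j p q * W i k p q
  have hGr0 : ∀ i, (Gr i).det ≠ 0 := fun i => gramDet (W i) (hWi i)
  have hWB : ∀ i j p q, W i j p q ∈ B := fun i j => (hMB _).mp (hW i j)
  have hGrB : ∀ i j k, Gr i j k ∈ B := by
    intro i j k
    exact B.sum_mem fun p _ => B.sum_mem fun q _ => B.mul_mem (hWB i j p q) (hWB i k p q)
  have hGrBM : ∀ i, ∃ M : Matrix κ κ B, (B.val : B →+* ℝ).mapMatrix M = Gr i := fun i =>
    ⟨Matrix.of fun j k => ⟨Gr i j k, hGrB i j k⟩, rfl⟩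
  have hdetB : ∀ i, (Gr i).det ∈ B := by
    intro i
    obtain ⟨M, hM⟩ := hGrBM i
    rw [← hM, ← RingHom.map_det]
    exact (M.det).2
  have hadjB : ∀ i j k, (Gr i).adjugate j k ∈ B := by
    intro i j k
    obtain ⟨M, hM⟩ := hGrBM i
    rw [← hM, ← RingHom.map_adjugate]
    exact (M.adjugate j k).2
  -- integers prime to s divisible by the Gram determinants
  choose c hc0 hcs y hyB hcy using fun i =>
    exists_nat_dvd s hs S hSint hSs (Gr i).det (hdetB i) (hGr0 i)
  -- t0
  let C0 : ℕ := ∏ i, c i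
  have hC0 : 0 < C0 := Finset.prod_pos fun i _ => hc0 i
  have hC0s : Nat.Coprime C0 s := Nat.Coprime.prod_left fun i _ => hcs i
  obtain ⟨e, he0, hes, heB⟩ : ∃ e : ℕ, 0 < e ∧ Nat.Coprime e s ∧ (e : ℝ) / 2 ∈ B := by
    rcases Nat.even_or_odd s with h | h
    · obtain ⟨r, hr⟩ := h
      refine ⟨1, one_pos, Nat.coprime_one_left s, ?_⟩
      have hsR : (s : ℝ) ≠ 0 := by positivity
      have h1 : ((1 : ℕ) : ℝ) / 2 = (r : ℝ) * (s : ℝ)⁻¹ := by
        have h2 : (s : ℝ) = r + r := by exact_mod_cast hr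
        have h3 : (r : ℝ) ≠ 0 := by intro h; rw [h] at h2; apply hsR; rw [h2]; ring
        rw [h2]; field_simp; push_cast; ring
      rw [h1]
      exact B.mul_mem (by exact_mod_cast B.natCast_mem r) (Algebra.subset_adjoin hSs)
    · refine ⟨2, two_pos, ?_, ?_⟩
      · exact Nat.coprime_two_left.mpr h
      · have : ((2 : ℕ) : ℝ) / 2 = 1 := by norm_num
        rw [this]; exact B.one_mem
  let t0 : ℕ := e * C0
  have ht0 : 0 < t0 := Nat.mul_pos he0 hC0
  have ht0s : Nat.Coprime t0 s := Nat.Coprime.mul_left hes hC0s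
  refine ⟨fun i => {b | ∃ V ∈ MB, (∑ j, (b j : ℝ) • X i j) = (t0 : ℝ) • V}, ?_⟩
  intro t ht hts
  -- the modulus
  set τ : ℕ := t0 * t with hτdef
  have hτ0 : 0 < τ := Nat.mul_pos ht0 ht
  have hτs : Nat.Coprime τ s := Nat.Coprime.mul_left ht0s hts
  have hτR : (τ : ℝ) ≠ 0 := by positivity
  have hτ2 : (τ : ℝ) / 2 ∈ B := by
    have h1 : (τ : ℝ) / 2 = (e : ℝ) / 2 * ((C0 * t : ℕ) : ℝ) := by
      rw [hτdef]; push_cast [t0]; ring
    rw [h1]
    exact B.mul_mem heB (by exact_mod_cast B.natCast_mem (C0 * t))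
  let I : Ideal B := Ideal.span {((τ : ℕ) : B)}
  have hfinR : Finite (B ⧸ I) := finite_quot s S hSint τ hτ0 hτs
  let θ : B →+* B ⧸ I := Ideal.Quotient.mk I
  have hθ : ∀ x : B, θ x = 0 ↔ ∃ v : B, (x : ℝ) = τ * v := by
    intro x
    rw [Ideal.Quotient.eq_zero_iff_mem, Ideal.mem_span_singleton]
    constructor
    · rintro ⟨v, hv⟩
      refine ⟨v, ?_⟩
      have := congrArg Subtype.val hv
      simpa using this
    · rintro ⟨v, hv⟩
      refine ⟨v, ?_⟩
      apply Subtype.val_injective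
      simpa using hv
  let incl : Matrix m m B →+* Matrix m m ℝ := (B.val : B →+* ℝ).mapMatrix
  have hincl : Function.Injective incl := by
    intro x y hxy
    ext p q
    have := congrFun (congrFun hxy p) q
    exact this
  let F0 : G → Matrix m m B := fun g => Matrix.of fun p q => ⟨ρ g p q, (hGB g).1 p q⟩
  have hF0 : ∀ g, incl (F0 g) = ρ g := fun g => rfl
  let ρB : G →* Matrix m m B :=
    { toFun := F0
      map_one' := by
        apply hincl
        rw [hF0, map_one, map_one]
      map_mul' := fun x y => by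
        apply hincl
        rw [map_mul, hF0, hF0, hF0, map_mul] }
  have hρB : ∀ g, incl (ρB g) = ρ g := fun g => rfl
  let θM : Matrix m m B →+* Matrix m m (B ⧸ I) := θ.mapMatrix
  have hθM : ∀ M : Matrix m m B, θM M = 0 ↔ ∃ V ∈ MB, incl M = (τ : ℝ) • V := by
    intro M
    constructor
    · intro h
      have h1 : ∀ p q, ∃ v : B, ((M p q : B) : ℝ) = τ * v := by
        intro p q
        rw [← hθ]
        exact congrFun (congrFun h p) q
      choose v hv using h1
      refine ⟨incl (Matrix.of v), ⟨_, rfl⟩, ?_⟩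
      ext p q
      exact hv p q
    · rintro ⟨V, ⟨V', rfl⟩, hV⟩
      ext p q
      have h1 : θ (M p q) = 0 := by
        rw [hθ]
        exact ⟨V' p q, congrFun (congrFun hV p) q⟩
      exact h1
  let φ : G →* Matrix m m (B ⧸ I) := (θM : Matrix m m B →* Matrix m m (B ⧸ I)).comp ρB
  have hφ : ∀ g, φ g = θM (ρB g) := fun g => rfl
  let N : Subgroup G := (φ.toHomUnits).ker
  have hN : ∀ g, g ∈ N ↔ ∃ V ∈ MB, ρ g - 1 = (τ : ℝ) • V := by
    intro g
    have h1 : g ∈ N ↔ φ g = 1 := by
      rw [MonoidHom.mem_ker, Units.ext_iff]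
      rfl
    rw [h1, hφ, ← sub_eq_zero, ← map_one θM, ← map_sub, hθM, map_sub, map_one, hρB]
  have hfin : Finite (Matrix m m (B ⧸ I)) := inferInstance
  have hfinU : Finite (Matrix m m (B ⧸ I))ˣ := inferInstance
  have hNfin : N.FiniteIndex := by
    have : Finite (φ.toHomUnits).range := inferInstance
    exact Subgroup.finiteIndex_ker _
  refine ⟨N, MonoidHom.normal_ker _, hNfin, ?_⟩
  intro i g a Z hZ hZ3 hρ
  -- multiplication by τ/2 preserves MB
  have hhalf : ∀ M ∈ MB, ((τ : ℝ) / 2) • M ∈ MB := by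
    intro M hM
    rw [hMB] at hM ⊢
    intro p q
    exact B.mul_mem hτ2 (hM p q)
  -- membership in N in terms of Z
  have hNZ : g ∈ N ↔ ∃ V ∈ MB, Z = (τ : ℝ) • V := by
    rw [hN]
    constructor
    · rintro ⟨U, hU, hgU⟩
      refine ⟨U - ((τ : ℝ) / 2) • (U * U), MB.sub_mem hU (hhalf _ (MB.mul_mem hU hU)), ?_⟩
      have h1 : ρ g - 1 = Z + (1/2 : ℝ) • (Z * Z) := by rw [hρ]; abel
      have h2 : (ρ g - 1) * (ρ g - 1) = Z * Z := by
        rw [h1]
        have e3 : Z * (Z * Z) = 0 := by rw [← mul_assoc]; exact hZ3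
        rw [mul_add, add_mul, add_mul, Matrix.mul_smul, Matrix.smul_mul, Matrix.smul_mul,
          Matrix.mul_smul, e3, hZ3, mul_assoc Z Z (Z * Z), e3]
        simp
      have h3 : Z = (ρ g - 1) - (1/2 : ℝ) • ((ρ g - 1) * (ρ g - 1)) := by
        rw [h2, h1]; abel
      rw [h3, hgU, Matrix.smul_mul, Matrix.mul_smul, smul_sub, smul_smul, smul_smul, smul_smul]
      congr 2
      ring
    · rintro ⟨V, hV, hZV⟩
      refine ⟨V + ((τ : ℝ) / 2) • (V * V), MB.add_mem hV (hhalf _ (MB.mul_mem hV hV)), ?_⟩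
      have h1 : ρ g - 1 = Z + (1/2 : ℝ) • (Z * Z) := by rw [hρ]; abel
      rw [h1, hZV, Matrix.smul_mul, Matrix.mul_smul, smul_add, smul_smul, smul_smul, smul_smul]
      congr 2
      ring
  rw [hNZ]
  have htR : (t : ℝ) ≠ 0 := by positivity
  constructor
  · rintro ⟨V, hV, hZV⟩
    -- divisibility by t
    have hdiv : ∀ j, (t : ℤ) ∣ a j := by
      intro j
      -- Gram matrix applied to a
      have hGa : ∀ k, (Gr i *ᵥ fun l => (a l : ℝ)) k = 2 * ∑ p, ∑ q, W i k p q * Z p q := by
        intro k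
        have h2 : ∀ p q, 2 * Z p q = ∑ l, (a l : ℝ) * W i l p q := by
          intro p q
          rw [hZ, Matrix.sum_apply, Finset.mul_sum]
          refine Finset.sum_congr rfl fun l _ => ?_
          simp only [W, Matrix.smul_apply, smul_eq_mul]
          ring
        have h3 : 2 * ∑ p, ∑ q, W i k p q * Z p q
            = ∑ p, ∑ q, W i k p q * (∑ l, (a l : ℝ) * W i l p q) := by
          rw [Finset.mul_sum]
          refine Finset.sum_congr rfl fun p _ => ?_
          rw [Finset.mul_sum]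
          refine Finset.sum_congr rfl fun q _ => ?_
          rw [← h2]; ring
        rw [h3]
        calc (Gr i *ᵥ fun l => (a l : ℝ)) k
            = ∑ l, ∑ p, ∑ q, W i k p q * ((a l : ℝ) * W i l p q) := by
              simp only [Matrix.mulVec, dotProduct, Gr, Matrix.of_apply]
              refine Finset.sum_congr rfl fun l _ => ?_
              rw [Finset.sum_mul]
              refine Finset.sum_congr rfl fun p _ => ?_
              rw [Finset.sum_mul]
              refine Finset.sum_congr rfl fun q _ => ?_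
              ring
          _ = ∑ p, ∑ l, ∑ q, W i k p q * ((a l : ℝ) * W i l p q) := Finset.sum_comm
          _ = ∑ p, ∑ q, ∑ l, W i k p q * ((a l : ℝ) * W i l p q) := by
              refine Finset.sum_congr rfl fun p _ => Finset.sum_comm
          _ = ∑ p, ∑ q, W i k p q * (∑ l, (a l : ℝ) * W i l p q) := by
              refine Finset.sum_congr rfl fun p _ => Finset.sum_congr rfl fun q _ => ?_
              rw [Finset.mul_sum]
      have hsum : (Gr i).det * (a j : ℝ) =
          ∑ k, (Gr i).adjugate j k * (2 * ∑ p, ∑ q, W i k p q * Z p q) := by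
        have h1 : ((Gr i).adjugate *ᵥ (Gr i *ᵥ fun l => (a l : ℝ))) j = (Gr i).det * (a j : ℝ) := by
          rw [Matrix.mulVec_mulVec, Matrix.adjugate_mul, Matrix.smul_mulVec, Matrix.one_mulVec]
          rfl
        rw [← h1]
        simp only [Matrix.mulVec, dotProduct] at hGa ⊢
        refine Finset.sum_congr rfl fun k _ => ?_
        rw [hGa k]
      let u : ℝ := ∑ k, (Gr i).adjugate j k * (2 * ∑ p, ∑ q, W i k p q * V p q)
      have huB : u ∈ B := by
        refine B.sum_mem fun k _ => B.mul_mem (hadjB i j k) (B.mul_mem ?_ ?_)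
        · exact_mod_cast B.natCast_mem 2
        · exact B.sum_mem fun p _ => B.sum_mem fun q _ =>
            B.mul_mem (hWB i k p q) ((hMB V).mp hV p q)
      have hsum2 : (Gr i).det * (a j : ℝ) = τ * u := by
        rw [hsum]
        simp only [u]
        rw [Finset.mul_sum]
        refine Finset.sum_congr rfl fun k _ => ?_
        have h1 : ∑ p, ∑ q, W i k p q * Z p q = τ * ∑ p, ∑ q, W i k p q * V p q := by
          rw [Finset.mul_sum]
          refine Finset.sum_congr rfl fun p _ => ?_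
          rw [Finset.mul_sum]
          refine Finset.sum_congr rfl fun q _ => ?_
          rw [hZV, Matrix.smul_apply, smul_eq_mul]; ring
        rw [h1]; ring
      have hca : (((c i : ℤ) * a j : ℤ) : ℝ) = τ * (y i * u) := by
        push_cast
        rw [hcy i]
        have : (Gr i).det * y i * (a j : ℝ) = y i * ((Gr i).det * (a j : ℝ)) := by ring
        rw [this, hsum2]; ring
      have hdvd : (τ : ℤ) ∣ (c i : ℤ) * a j :=
        (sInt_adjoin s S hSint _ (B.mul_mem (hyB i) huB)).dvd hτ0 hτs hca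
      obtain ⟨C', hC'⟩ : c i ∣ C0 := Finset.dvd_prod_of_mem c (Finset.mem_univ i)
      have hτc : (τ : ℤ) = (c i : ℤ) * ((e : ℤ) * C' * t) := by
        rw [hτdef]
        simp only [t0]
        rw [hC']; push_cast; ring
      rw [hτc] at hdvd
      have h7 : ((e : ℤ) * C' * t) ∣ a j :=
        Int.dvd_of_mul_dvd_mul_left (by exact_mod_cast (hc0 i).ne') hdvd
      exact (Dvd.intro_left _ rfl).trans h7
    choose b hb using hdiv
    refine ⟨b, ⟨V, hV, ?_⟩, hb⟩
    have h1 : (t : ℝ) • ∑ j, (b j : ℝ) • X i j = Z := by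
      rw [hZ, Finset.smul_sum]
      refine Finset.sum_congr rfl fun j _ => ?_
      rw [hb j, smul_smul]; push_cast; rfl
    have h2 : (t : ℝ) • ∑ j, (b j : ℝ) • X i j = (t : ℝ) • ((t0 : ℝ) • V) := by
      rw [h1, hZV, smul_smul, hτdef]; push_cast; rw [mul_comm]
    exact smul_right_injective _ htR h2
  · rintro ⟨b, ⟨V, hV, hbV⟩, hab⟩
    refine ⟨V, hV, ?_⟩
    rw [hZ]
    have h1 : ∑ j, (a j : ℝ) • X i j = (t : ℝ) • ∑ j, (b j : ℝ) • X i j := by
      rw [Finset.smul_sum]
      refine Finset.sum_congr rfl fun j _ => ?_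
      rw [hab j, smul_smul]; push_cast; rfl
    rw [h1, hbV, smul_smul, hτdef]
    push_cast
    rw [mul_comm]

end Pool.Agent.CuspCov
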