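import Pool.Agent.Helper55_CCC.Geom

/-!
# Cusp groups in terms of matrices
-/

set_option autoImplicit false

namespace Pool.Agent.CuspCov

open Matrix

variable {n : ℕ}

/-- the tautological representation of `Γ` by matrices -/
def rep (Γ : Subgroup (GL (Fin (n + 1)) ℝ)) : Γ →* Matrix (Fin (n + 1)) (Fin (n + 1)) ℝ :=
  (Units.coeHom (Matrix (Fin (n + 1)) (Fin (n + 1)) ℝ)).comp Γ.subtype

theorem rep_injective (Γ : Subgroup (GL (Fin (n + 1)) ℝ)) : Function.Injective (rep Γ) := by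
  intro g h hgh
  apply Subtype.ext
  apply Units.ext
  exact hgh

/-- the cusp group in terms of matrices -/
theorem cusp_data (Γ : Subgroup (GL (Fin (n + 1)) ℝ)) (P : Subgroup Γ) (hP : IsTorusCusp Γ P) :
    ∃ (e : Fin (n + 1) → ℝ) (w : Fin (n - 1) → (Fin (n + 1) → ℝ)),
      lor e e = 0 ∧ (∀ j, lor e (w j) = 0) ∧ LinearIndependent ℝ (fun j => inf e (w j)) ∧
      (∀ g ∈ P, ∃ a : Fin (n - 1) → ℤ, rep Γ g = expo e (∑ j, (a j : ℝ) • w j)) ∧
      (∀ a : Fin (n - 1) → ℤ, ∃ g ∈ P, rep Γ g = expo e (∑ j, (a j : ℝ) • w j)) := by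
  obtain ⟨e, w, he0, he, hw, hind, h1, h2⟩ := hP
  have hwa : ∀ a : Fin (n - 1) → ℤ, lor e (∑ j, (a j : ℝ) • w j) = 0 := by
    intro a
    rw [lor_sum_right]
    refine Finset.sum_eq_zero fun j _ => ?_
    rw [lor_smul_right, hw, mul_zero]
  refine ⟨e, w, he, hw, inf_linearIndependent e he0 w hind, ?_, ?_⟩
  · intro g hg
    obtain ⟨a, ha⟩ := h1 g hg
    refine ⟨a, matrix_ext_mulVec fun x => ?_⟩
    unfold expo
    rw [exp_mulVec e _ x he (hwa a)]
    exact ha x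
  · intro a
    obtain ⟨g, hg, ha⟩ := h2 a
    refine ⟨g, hg, matrix_ext_mulVec fun x => ?_⟩
    unfold expo
    rw [exp_mulVec e _ x he (hwa a)]
    exact ha x

theorem lor_dir (e : Fin (n + 1) → ℝ) (w : Fin (n - 1) → (Fin (n + 1) → ℝ))
    (hw : ∀ j, lor e (w j) = 0) (a : Fin (n - 1) → ℤ) :
    lor e (∑ j, (a j : ℝ) • w j) = 0 := by
  rw [lor_sum_right]
  refine Finset.sum_eq_zero fun j _ => ?_
  rw [lor_smul_right, hw, mul_zero]

theorem expo_dir_pow (e : Fin (n + 1) → ℝ) (w : Fin (n - 1) → (Fin (n + 1) → ℝ))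
    (he : lor e e = 0) (hw : ∀ j, lor e (w j) = 0) (a : Fin (n - 1) → ℤ) (t : ℕ) :
    expo e (∑ j, (a j : ℝ) • w j) ^ t = expo e (∑ j, (((t : ℤ) * a j : ℤ) : ℝ) • w j) := by
  rw [expo_pow _ _ he (lor_dir e w hw a), Finset.smul_sum]
  congr 1
  refine Finset.sum_congr rfl fun j _ => ?_
  rw [smul_smul]; push_cast; rfl

end Pool.Agent.CuspCov
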