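import Pool.Agent.Helper55_CCC.Core
import Pool.Agent.Helper55_CCC.CoreS

/-!
# Parabolic translations of the Lorentz space
-/

set_option autoImplicit false

namespace Pool.Agent.CuspCov

open Matrix

variable {n : ℕ}

/-- the Lorentz form `x_0 y_0 + ... + x_{n-1} y_{n-1} - x_n y_n` on `ℝ^{n+1}` -/
def lor (x y : Fin (n + 1) → ℝ) : ℝ :=
  ∑ i, (if i = Fin.last n then -1 else 1) * (x i * y i)

/-- the parabolic translation at the isotropic vector `e` in the direction `w` orthogonal to `e` -/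
noncomputable def parabolic (e w x : Fin (n + 1) → ℝ) : Fin (n + 1) → ℝ :=
  x + lor x e • w - lor x w • e - (1/2 * lor w w * lor x e) • e

theorem lor_comm (x y : Fin (n + 1) → ℝ) : lor x y = lor y x := by
  unfold lor
  refine Finset.sum_congr rfl fun i _ => ?_
  ring

theorem lor_add_left (x y z : Fin (n + 1) → ℝ) : lor (x + y) z = lor x z + lor y z := by
  unfold lor
  rw [← Finset.sum_add_distrib]
  refine Finset.sum_congr rfl fun i _ => ?_
  rw [Pi.add_apply]; ring

theorem lor_smul_left (c : ℝ) (x z : Fin (n + 1) → ℝ) : lor (c • x) z = c * lor x z := by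
  unfold lor
  rw [Finset.mul_sum]
  refine Finset.sum_congr rfl fun i _ => ?_
  rw [Pi.smul_apply, smul_eq_mul]; ring

theorem lor_sub_left (x y z : Fin (n + 1) → ℝ) : lor (x - y) z = lor x z - lor y z := by
  have : x - y = x + (-1 : ℝ) • y := by rw [neg_one_smul]; abel
  rw [this, lor_add_left, lor_smul_left]; ring

theorem lor_add_right (x y z : Fin (n + 1) → ℝ) : lor x (y + z) = lor x y + lor x z := by
  rw [lor_comm, lor_add_left, lor_comm y, lor_comm z]

theorem lor_smul_right (c : ℝ) (x z : Fin (n + 1) → ℝ) : lor x (c • z) = c * lor x z := by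
  rw [lor_comm, lor_smul_left, lor_comm]

theorem lor_sum_right {κ : Type} (s : Finset κ) (x : Fin (n + 1) → ℝ)
    (f : κ → (Fin (n + 1) → ℝ)) : lor x (∑ j ∈ s, f j) = ∑ j ∈ s, lor x (f j) := by
  classical
  induction s using Finset.induction_on with
  | empty =>
    rw [Finset.sum_empty, Finset.sum_empty]
    have : (0 : Fin (n + 1) → ℝ) = (0 : ℝ) • 0 := by simp
    rw [this, lor_smul_right, zero_mul]
  | insert a s ha ih =>
    rw [Finset.sum_insert ha, Finset.sum_insert ha, lor_add_right, ih]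

/-- nondegeneracy -/
theorem exists_lor_ne (e : Fin (n + 1) → ℝ) (he : e ≠ 0) : ∃ x, lor x e ≠ 0 := by
  obtain ⟨i, hi⟩ := Function.ne_iff.mp he
  refine ⟨Pi.single i 1, ?_⟩
  unfold lor
  rw [Finset.sum_eq_single i]
  · rw [Pi.single_eq_same, one_mul]
    split_ifs
    · intro h; apply hi; simpa using h
    · intro h; apply hi; simpa using h
  · intro j _ hj
    rw [Pi.single_eq_of_ne hj]; ring
  · intro h; exact absurd (Finset.mem_univ i) h

/-- the infinitesimal parabolic translation `x ↦ ⟨x,e⟩ w - ⟨x,w⟩ e` as a linear map -/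
noncomputable def infLin (e w : Fin (n + 1) → ℝ) : (Fin (n + 1) → ℝ) →ₗ[ℝ] (Fin (n + 1) → ℝ) where
  toFun x := lor x e • w - lor x w • e
  map_add' x y := by
    rw [lor_add_left, lor_add_left, add_smul, add_smul]; abel
  map_smul' c x := by
    rw [lor_smul_left, lor_smul_left, mul_smul, mul_smul, RingHom.id_apply, smul_sub]

/-- the matrix of the infinitesimal parabolic translation -/
noncomputable def inf (e w : Fin (n + 1) → ℝ) : Matrix (Fin (n + 1)) (Fin (n + 1)) ℝ :=
  LinearMap.toMatrix' (infLin e w)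

theorem inf_mulVec (e w x : Fin (n + 1) → ℝ) : inf e w *ᵥ x = lor x e • w - lor x w • e := by
  unfold inf
  rw [LinearMap.toMatrix'_mulVec]
  rfl

theorem matrix_ext_mulVec {M N : Matrix (Fin (n + 1)) (Fin (n + 1)) ℝ}
    (h : ∀ x, M *ᵥ x = N *ᵥ x) : M = N := by
  ext p q
  have := congrFun (h (Pi.single q 1)) p
  simpa using this

theorem inf_sq_mulVec (e w x : Fin (n + 1) → ℝ) (he : lor e e = 0) (hw : lor e w = 0) :
    (inf e w * inf e w) *ᵥ x = -(lor w w * lor x e) • e := by
  rw [← Matrix.mulVec_mulVec, inf_mulVec, inf_mulVec, lor_sub_left, lor_sub_left, lor_smul_left,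
    lor_smul_left, lor_smul_left, lor_smul_left, he, hw, lor_comm w e, hw]
  simp only [mul_zero, sub_zero, zero_smul, zero_sub]
  rw [← neg_smul]
  congr 1
  ring

theorem inf_cube (e w : Fin (n + 1) → ℝ) (he : lor e e = 0) (hw : lor e w = 0) :
    inf e w * inf e w * inf e w = 0 := by
  apply matrix_ext_mulVec
  intro x
  rw [← Matrix.mulVec_mulVec, inf_sq_mulVec e w _ he hw, inf_mulVec, lor_sub_left, lor_smul_left,
    lor_smul_left, he, lor_comm w e, hw, Matrix.zero_mulVec]
  simp

theorem exp_mulVec (e w x : Fin (n + 1) → ℝ) (he : lor e e = 0) (hw : lor e w = 0) :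
    (1 + inf e w + (1/2 : ℝ) • (inf e w * inf e w)) *ᵥ x = parabolic e w x := by
  rw [Matrix.add_mulVec, Matrix.add_mulVec, Matrix.one_mulVec, Matrix.smul_mulVec,
    inf_sq_mulVec e w x he hw, inf_mulVec, smul_smul]
  unfold parabolic
  have : (1/2 : ℝ) * -(lor w w * lor x e) = -(1/2 * lor w w * lor x e) := by ring
  rw [this, neg_smul]
  abel

theorem inf_sum {κ : Type} [Fintype κ] (e : Fin (n + 1) → ℝ) (w : κ → (Fin (n + 1) → ℝ))
    (a : κ → ℝ) : inf e (∑ j, a j • w j) = ∑ j, a j • inf e (w j) := by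
  classical
  apply matrix_ext_mulVec
  intro x
  rw [inf_mulVec, Matrix.sum_mulVec, lor_sum_right, Finset.smul_sum, Finset.sum_smul,
    ← Finset.sum_sub_distrib]
  refine Finset.sum_congr rfl fun j _ => ?_
  rw [Matrix.smul_mulVec, inf_mulVec, lor_smul_right, smul_sub, smul_smul, smul_smul, smul_smul,
    mul_comm (lor x e)]

theorem inf_linearIndependent {κ : Type} [Fintype κ] (e : Fin (n + 1) → ℝ) (he0 : e ≠ 0)
    (w : κ → (Fin (n + 1) → ℝ))
    (hind : ∀ (a : κ → ℝ) (b : ℝ), ∑ j, a j • w j = b • e → a = 0) :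
    LinearIndependent ℝ (fun j => inf e (w j)) := by
  classical
  rw [Fintype.linearIndependent_iff]
  intro a ha
  rw [← inf_sum] at ha
  obtain ⟨x, hx⟩ := exists_lor_ne e he0
  set v := ∑ j, a j • w j with hv
  have h1 : inf e v *ᵥ x = 0 := by rw [ha, Matrix.zero_mulVec]
  rw [inf_mulVec, sub_eq_zero] at h1
  have h2 : v = ((lor x e)⁻¹ * lor x v) • e := by
    rw [mul_smul, ← h1, smul_smul, inv_mul_cancel₀ hx, one_smul]
  have h3 := hind a _ h2
  intro i
  rw [h3]; rfl

theorem inf_mul_comm (e v w : Fin (n + 1) → ℝ) (he : lor e e = 0) (hv : lor e v = 0)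
    (hw : lor e w = 0) : inf e v * inf e w = inf e w * inf e v := by
  apply matrix_ext_mulVec
  intro x
  rw [← Matrix.mulVec_mulVec, ← Matrix.mulVec_mulVec, inf_mulVec, inf_mulVec, inf_mulVec,
    inf_mulVec, lor_sub_left, lor_sub_left, lor_sub_left, lor_sub_left]
  simp only [lor_smul_left, he, lor_comm w e, lor_comm v e, hv, hw, lor_comm w v]
  simp

theorem inf_mul_mul (e u v w : Fin (n + 1) → ℝ) (he : lor e e = 0) (hu : lor e u = 0)
    (hv : lor e v = 0) (hw : lor e w = 0) : inf e u * (inf e v * inf e w) = 0 := by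
  apply matrix_ext_mulVec
  intro x
  have h1 : ∃ c : ℝ, (inf e v * inf e w) *ᵥ x = c • e := by
    refine ⟨-(lor x e * lor w v), ?_⟩
    rw [← Matrix.mulVec_mulVec, inf_mulVec, inf_mulVec, lor_sub_left, lor_sub_left]
    simp only [lor_smul_left, he, lor_comm w e, hv, hw]
    simp only [mul_zero, sub_zero, zero_smul, zero_sub]
    rw [← neg_smul]
  obtain ⟨c, hc⟩ := h1
  rw [← Matrix.mulVec_mulVec, hc, inf_mulVec, lor_smul_left, lor_smul_left, he, hu,
    Matrix.zero_mulVec]
  simp

/-- the exponential of an infinitesimal parabolic translation -/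
noncomputable def expo (e w : Fin (n + 1) → ℝ) : Matrix (Fin (n + 1)) (Fin (n + 1)) ℝ :=
  1 + inf e w + (1/2 : ℝ) • (inf e w * inf e w)

theorem inf_add (e v w : Fin (n + 1) → ℝ) : inf e (v + w) = inf e v + inf e w := by
  apply matrix_ext_mulVec
  intro x
  rw [Matrix.add_mulVec, inf_mulVec, inf_mulVec, inf_mulVec, lor_add_right, smul_add, add_smul]
  abel

theorem expo_mul (e v w : Fin (n + 1) → ℝ) (he : lor e e = 0) (hv : lor e v = 0)
    (hw : lor e w = 0) : expo e v * expo e w = expo e (v + w) := by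
  unfold expo
  rw [inf_add]
  have hc := inf_mul_comm e v w he hv hw
  set V := inf e v with hV
  set W := inf e w with hW
  have t1 : V * (W * W) = 0 := inf_mul_mul e v w w he hv hw hw
  have t2 : V * V * W = 0 := by rw [mul_assoc]; exact inf_mul_mul e v v w he hv hv hw
  have t3 : V * V * (W * W) = 0 := by rw [mul_assoc, t1, mul_zero]
  rw [add_mul, add_mul, mul_add, mul_add, mul_add, mul_add, mul_add, mul_add, mul_add, add_mul,
    add_mul, Matrix.smul_mul, Matrix.smul_mul, Matrix.smul_mul, Matrix.mul_smul, Matrix.mul_smul,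
    Matrix.mul_smul, t1, t2, t3, ← hc]
  simp only [one_mul, mul_one, smul_zero, add_zero, smul_add]
  have h2 : V * W = (1/2 : ℝ) • (V * W) + (1/2 : ℝ) • (V * W) := by
    rw [← add_smul]; norm_num
  conv_lhs => rw [h2]
  abel

theorem expo_pow (e w : Fin (n + 1) → ℝ) (he : lor e e = 0) (hw : lor e w = 0) (t : ℕ) :
    expo e w ^ t = expo e ((t : ℝ) • w) := by
  induction t with
  | zero =>
    rw [pow_zero]
    unfold expo
    have : inf e (((0 : ℕ) : ℝ) • w) = 0 := by
      apply matrix_ext_mulVec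
      intro x
      rw [inf_mulVec, lor_smul_right]
      simp
    rw [this]; simp
  | succ t ih =>
    rw [pow_succ, ih, expo_mul e _ _ he (by rw [lor_smul_right, hw, mul_zero]) hw]
    congr 1
    push_cast
    rw [add_smul, one_smul]

/-- A subgroup `P` of `Γ` is the group of a cusp with torus cross-section: for an isotropic vector
`e` and vectors `w_1, ..., w_{n-1}` orthogonal to `e` and linearly independent modulo `e`, the
elements of `P` are exactly the parabolic translations at `e` in the directions of the lattice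
spanned by the `w_j`. -/
def IsTorusCusp (Γ : Subgroup (GL (Fin (n + 1)) ℝ)) (P : Subgroup Γ) : Prop :=
  ∃ (e : Fin (n + 1) → ℝ) (w : Fin (n - 1) → (Fin (n + 1) → ℝ)),
    e ≠ 0 ∧ lor e e = 0 ∧ (∀ j, lor e (w j) = 0) ∧
    (∀ (a : Fin (n - 1) → ℝ) (b : ℝ), ∑ j, a j • w j = b • e → a = 0) ∧
    (∀ g ∈ P, ∃ a : Fin (n - 1) → ℤ, ∀ x,
      ((g : GL (Fin (n + 1)) ℝ) : Matrix (Fin (n + 1)) (Fin (n + 1)) ℝ) *ᵥ x
        = parabolic e (∑ j, (a j : ℝ) • w j) x) ∧
    (∀ a : Fin (n - 1) → ℤ, ∃ g ∈ P, ∀ x,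
      ((g : GL (Fin (n + 1)) ℝ) : Matrix (Fin (n + 1)) (Fin (n + 1)) ℝ) *ᵥ x
        = parabolic e (∑ j, (a j : ℝ) • w j) x)

end Pool.Agent.CuspCov
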