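import Mathlib

/-!
# Finitely generated subrings of the reals have finite quotients of every characteristic
prime to a fixed integer
-/

set_option autoImplicit false

namespace Pool.Agent.CuspCov

open Matrix

/-- the localization of the integers at `D` embeds into the rationals -/
theorem awayRat (D : ℕ) (hD : 0 < D) :
    ∃ j : Localization.Away (D : ℤ) →+* ℚ, Function.Injective j ∧
      ∀ q : ℚ, q.den ∣ D → ∃ r, j r = q := by
  have hu : IsUnit (Int.castRingHom ℚ (D : ℤ)) := by
    have : (D : ℚ) ≠ 0 := by positivity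
    simpa using this.isUnit
  refine ⟨IsLocalization.Away.lift (D : ℤ) hu, ?_, ?_⟩
  · have hg : ∀ y : Submonoid.powers (D : ℤ), IsUnit (Int.castRingHom ℚ y) := by
      rintro ⟨y, k, rfl⟩
      simp only [map_pow]
      exact hu.pow k
    have hinj : Function.Injective (algebraMap ℤ (Localization.Away (D : ℤ))) := by
      apply IsLocalization.injective (M := Submonoid.powers (D : ℤ))
      exact powers_le_nonZeroDivisors_of_noZeroDivisors (by exact_mod_cast hD.ne')
    have := (IsLocalization.lift_injective_iff (S := Localization.Away (D : ℤ)) hg).2 (by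
      intro x y
      constructor
      · intro h; rw [hinj h]
      · intro h
        have h' : x = y := by simpa using h
        rw [h'])
    exact this
  · intro q hq
    obtain ⟨c, hc⟩ := hq
    have hDq : (D : ℚ) ≠ 0 := by positivity
    have hden : (q.den : ℚ) ≠ 0 := by exact_mod_cast q.den_nz
    refine ⟨IsLocalization.mk' (Localization.Away (D : ℤ)) (q.num * c)
      (⟨(D : ℤ), Submonoid.mem_powers _⟩ : Submonoid.powers (D : ℤ)), ?_⟩
    have h1 : algebraMap ℤ (Localization.Away (D : ℤ)) (D : ℤ) *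
        IsLocalization.mk' (Localization.Away (D : ℤ)) (q.num * c)
      (⟨(D : ℤ), Submonoid.mem_powers _⟩ : Submonoid.powers (D : ℤ)) =
        algebraMap ℤ (Localization.Away (D : ℤ)) (q.num * c) := by
      exact IsLocalization.mk'_spec' (Localization.Away (D : ℤ)) (q.num * c)
        (⟨(D : ℤ), Submonoid.mem_powers _⟩ : Submonoid.powers (D : ℤ))
    have h2 := congrArg (IsLocalization.Away.lift (D : ℤ) hu) h1
    rw [map_mul, IsLocalization.Away.lift_eq, IsLocalization.Away.lift_eq] at h2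
    simp only [eq_intCast, Int.cast_mul, Int.cast_natCast] at h2
    have h3 : q = (q.num : ℚ) / q.den := (Rat.num_div_den q).symm
    have h4 : (D : ℚ) = q.den * c := by exact_mod_cast hc
    have hc0 : (c : ℚ) ≠ 0 := by
      intro h0; rw [h0, mul_zero] at h4; exact hDq h4
    apply mul_left_cancel₀ hDq
    rw [h2, h4]
    have h5 : (q.num : ℚ) = q.den * q := by
      rw [mul_comm]; exact (Rat.mul_den_eq_num q).symm
    rw [h5]; ring

theorem keyRing (S : Finset ℝ) :
    ∃ D : ℕ, 0 < D ∧ ∀ t : ℕ, 0 < t → Nat.Coprime t D →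
      ∃ (R : Type) (_ : Ring R) (_ : Finite R) (θ : (Subring.closure (S : Set ℝ)) →+* R),
        ∀ a : ℤ, θ (a : Subring.closure (S : Set ℝ)) = 0 ↔ (t : ℤ) ∣ a := by
  classical
  let A : Subalgebra ℚ ℝ := Algebra.adjoin ℚ (S : Set ℝ)
  have hft : Algebra.FiniteType ℚ A := (Subalgebra.fg_iff_finiteType A).mp ⟨S, rfl⟩
  obtain ⟨M, hM⟩ := Ideal.exists_maximal A
  let _ := Ideal.Quotient.field M
  have : Algebra.FiniteType ℚ (A ⧸ M) := inferInstance
  have hfin : Module.Finite ℚ (A ⧸ M) := finite_of_finite_type_of_isJacobsonRing ℚ (A ⧸ M)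
  let b := Module.finBasis ℚ (A ⧸ M)
  set r := Module.finrank ℚ (A ⧸ M) with hr
  have hrpos : 0 < r := Module.finrank_pos
  let ψ : A →+* Matrix (Fin r) (Fin r) ℚ :=
    (Algebra.leftMulMatrix b : (A ⧸ M) →ₐ[ℚ] Matrix (Fin r) (Fin r) ℚ).toRingHom.comp
      (Ideal.Quotient.mk M)
  have hSA : ∀ s ∈ S, s ∈ A := fun s hs => Algebra.subset_adjoin hs
  let D : ℕ := ∏ s : S, ∏ i : Fin r, ∏ k : Fin r, (ψ ⟨s.1, hSA s.1 s.2⟩ i k).den
  have hD : 0 < D := by
    refine Finset.prod_pos fun s _ => Finset.prod_pos fun i _ => Finset.prod_pos fun k _ => ?_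
    exact Nat.pos_of_ne_zero (Rat.den_nz _)
  have hden : ∀ (s : S) (i k : Fin r), (ψ ⟨s.1, hSA s.1 s.2⟩ i k).den ∣ D := by
    intro s i k
    refine (Finset.dvd_prod_of_mem
      (fun k : Fin r => (ψ ⟨s.1, hSA s.1 s.2⟩ i k).den) (Finset.mem_univ k)).trans ?_
    refine (Finset.dvd_prod_of_mem
      (fun i : Fin r => ∏ k : Fin r, (ψ ⟨s.1, hSA s.1 s.2⟩ i k).den) (Finset.mem_univ i)).trans ?_
    exact Finset.dvd_prod_of_mem
      (fun s : S => ∏ i : Fin r, ∏ k : Fin r, (ψ ⟨s.1, hSA s.1 s.2⟩ i k).den) (Finset.mem_univ s)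
  refine ⟨D, hD, ?_⟩
  intro t ht htD
  obtain ⟨j, hj, hjr⟩ := awayRat D hD
  -- reduction
  have hu : IsUnit (Int.castRingHom (ZMod t) (D : ℤ)) := by
    have := (ZMod.isUnit_iff_coprime D t).mpr htD.symm
    simpa using this
  let red : Localization.Away (D : ℤ) →+* ZMod t := IsLocalization.Away.lift (D : ℤ) hu
  let J : Matrix (Fin r) (Fin r) (Localization.Away (D : ℤ)) →+* Matrix (Fin r) (Fin r) ℚ :=
    j.mapMatrix
  have hJ : Function.Injective J := by
    intro x y hxy
    ext i k
    apply hj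
    have := congrFun (congrFun hxy i) k
    simpa [J, RingHom.mapMatrix_apply] using this
  -- inclusion
  have hle : Subring.closure (S : Set ℝ) ≤ A.toSubring := by
    rw [Subring.closure_le]
    intro s hs
    exact hSA s hs
  let inc : Subring.closure (S : Set ℝ) →+* A := Subring.inclusion hle
  let Ψ : Subring.closure (S : Set ℝ) →+* Matrix (Fin r) (Fin r) ℚ := ψ.comp inc
  have hrange : ∀ x, Ψ x ∈ J.range := by
    rintro ⟨x, hx⟩
    induction hx using Subring.closure_induction with
    | mem x hx =>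
      have h1 : ∀ i k, ∃ ρ, j ρ = Ψ ⟨x, Subring.subset_closure hx⟩ i k := by
        intro i k
        exact hjr _ (hden ⟨x, hx⟩ i k)
      choose ρ hρ using h1
      refine ⟨ρ, ?_⟩
      ext i k
      exact hρ i k
    | zero =>
      have : (⟨0, Subring.zero_mem _⟩ : Subring.closure (S : Set ℝ)) = 0 := rfl
      rw [this, map_zero]; exact Subring.zero_mem _
    | one =>
      have : (⟨1, Subring.one_mem _⟩ : Subring.closure (S : Set ℝ)) = 1 := rfl
      rw [this, map_one]; exact Subring.one_mem _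
    | add x y hx hy h1 h2 =>
      have : (⟨x + y, Subring.add_mem _ hx hy⟩ : Subring.closure (S : Set ℝ)) =
        ⟨x, hx⟩ + ⟨y, hy⟩ := rfl
      rw [this, map_add]; exact Subring.add_mem _ h1 h2
    | neg x hx h1 =>
      have : (⟨-x, Subring.neg_mem _ hx⟩ : Subring.closure (S : Set ℝ)) = - ⟨x, hx⟩ := rfl
      rw [this, map_neg]; exact Subring.neg_mem _ h1
    | mul x y hx hy h1 h2 =>
      have : (⟨x * y, Subring.mul_mem _ hx hy⟩ : Subring.closure (S : Set ℝ)) =
        ⟨x, hx⟩ * ⟨y, hy⟩ := rfl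
      rw [this, map_mul]; exact Subring.mul_mem _ h1 h2
  let Ψ' : Subring.closure (S : Set ℝ) →+* J.range := Ψ.codRestrict J.range hrange
  let e : Matrix (Fin r) (Fin r) (Localization.Away (D : ℤ)) ≃+* J.range :=
    RingEquiv.ofBijective J.rangeRestrict
      ⟨fun x y hxy => hJ (congrArg Subtype.val hxy), J.rangeRestrict_surjective⟩
  have : NeZero t := ⟨ht.ne'⟩
  refine ⟨Matrix (Fin r) (Fin r) (ZMod t), inferInstance, inferInstance,
    (red.mapMatrix).comp ((e.symm : J.range →+* _).comp Ψ'), ?_⟩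
  intro a
  rw [map_intCast, ← ZMod.intCast_zmod_eq_zero_iff_dvd a t, ← Matrix.diagonal_intCast']
  constructor
  · intro h
    have := congrFun (congrFun h ⟨0, hrpos⟩) ⟨0, hrpos⟩
    rw [Matrix.diagonal_apply_eq] at this
    simpa using this
  · intro h
    rw [show ((a : Fin r → ZMod t)) = 0 from by ext i; simpa using h]
    exact Matrix.diagonal_zero

end Pool.Agent.CuspCov
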