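import Mathlib

/-!
# Finitely generated rings of algebraic numbers integral outside `s`
-/

set_option autoImplicit false

namespace Pool.Agent.CuspCov

/-- `x` is an algebraic integer up to a power of `s` -/
def SInt (s : ℕ) (x : ℝ) : Prop := ∃ k : ℕ, IsIntegral ℤ ((s : ℝ) ^ k * x)

theorem SInt.of_int {s : ℕ} (a : ℤ) : SInt s a :=
  ⟨0, by simpa using (isIntegral_algebraMap (R := ℤ) (A := ℝ) (x := a))⟩

theorem isInt_nat (a : ℕ) : IsIntegral ℤ (a : ℝ) := by
  simpa using (isIntegral_algebraMap (R := ℤ) (A := ℝ) (x := (a : ℤ)))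

theorem SInt.add {s : ℕ} {x y : ℝ} (hx : SInt s x) (hy : SInt s y) : SInt s (x + y) := by
  obtain ⟨k, hk⟩ := hx
  obtain ⟨l, hl⟩ := hy
  refine ⟨k + l, ?_⟩
  have h1 : (s : ℝ) ^ (k + l) * (x + y) = (s : ℝ) ^ l * ((s : ℝ) ^ k * x)
      + (s : ℝ) ^ k * ((s : ℝ) ^ l * y) := by ring
  rw [h1]
  exact (((isInt_nat s).pow l).mul hk).add (((isInt_nat s).pow k).mul hl)

theorem SInt.mul {s : ℕ} {x y : ℝ} (hx : SInt s x) (hy : SInt s y) : SInt s (x * y) := by
  obtain ⟨k, hk⟩ := hx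
  obtain ⟨l, hl⟩ := hy
  refine ⟨k + l, ?_⟩
  have h1 : (s : ℝ) ^ (k + l) * (x * y) = ((s : ℝ) ^ k * x) * ((s : ℝ) ^ l * y) := by ring
  rw [h1]
  exact hk.mul hl

theorem SInt.inv {s : ℕ} (hs : 0 < s) : SInt s ((s : ℝ)⁻¹) := by
  refine ⟨1, ?_⟩
  have : (s : ℝ) ≠ 0 := by positivity
  rw [pow_one, mul_inv_cancel₀ this]
  exact isIntegral_one

/-- rational numbers integral outside `s` -/
theorem SInt.dvd {s : ℕ} {x : ℝ} (hx : SInt s x) {t : ℕ} (ht : 0 < t)
    (hts : Nat.Coprime t s) {a : ℤ} (ha : (a : ℝ) = t * x) : (t : ℤ) ∣ a := by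
  obtain ⟨k, hk⟩ := hx
  have ht0 : (t : ℝ) ≠ 0 := by positivity
  have ht0q : (t : ℚ) ≠ 0 := by positivity
  have h1 : (s : ℝ) ^ k * x = algebraMap ℚ ℝ ((s : ℚ) ^ k * a / t) := by
    have hx' : x = a / t := by rw [ha]; field_simp
    rw [hx']
    push_cast
    simp
    ring
  rw [h1] at hk
  have h2 : IsIntegral ℤ ((s : ℚ) ^ k * a / t) :=
    (isIntegral_algebraMap_iff (algebraMap ℚ ℝ).injective).mp hk
  obtain ⟨z, hz⟩ := IsIntegrallyClosed.isIntegral_iff.mp h2
  have h3 : (s : ℚ) ^ k * a = t * z := by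
    have : (algebraMap ℤ ℚ) z = (z : ℚ) := rfl
    rw [this] at hz
    rw [hz]; field_simp
  have h4 : (s : ℤ) ^ k * a = t * z := by exact_mod_cast h3
  have h5 : (t : ℤ) ∣ (s : ℤ) ^ k * a := ⟨z, h4⟩
  have h6 : IsCoprime (t : ℤ) ((s : ℤ) ^ k) := by
    apply IsCoprime.pow_right
    exact Nat.isCoprime_iff_coprime.mpr hts
  exact h6.dvd_of_dvd_mul_left h5

section

variable (s : ℕ) (hs : 0 < s) (S : Finset ℝ) (hS : ∀ x ∈ S, SInt s x)
  (hS' : ((s : ℝ)⁻¹) ∈ S)

include hS in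
theorem sInt_adjoin (x : ℝ) (hx : x ∈ Algebra.adjoin ℤ (S : Set ℝ)) : SInt s x := by
  induction hx using Algebra.adjoin_induction with
  | mem x hx => exact hS x hx
  | algebraMap r => exact SInt.of_int r
  | add x y _ _ h1 h2 => exact h1.add h2
  | mul x y _ _ h1 h2 => exact h1.mul h2

include hS in
theorem finite_quot (t : ℕ) (ht : 0 < t) (hts : Nat.Coprime t s) :
    Finite (Algebra.adjoin ℤ (S : Set ℝ) ⧸
      Ideal.span {((t : ℕ) : Algebra.adjoin ℤ (S : Set ℝ))}) := by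
  set B := Algebra.adjoin ℤ (S : Set ℝ) with hB
  set I : Ideal B := Ideal.span {((t : ℕ) : B)} with hI
  have hft : Algebra.FiniteType ℤ B := (Subalgebra.fg_iff_finiteType B).mp ⟨S, rfl⟩
  have hft2 : Algebra.FiniteType ℤ (B ⧸ I) := inferInstance
  -- inverse of s modulo t
  obtain ⟨u, v, huv⟩ := Nat.isCoprime_iff_coprime.mpr hts
  have ht0 : (Ideal.Quotient.mk I) ((t : ℕ) : B) = 0 :=
    Ideal.Quotient.eq_zero_iff_mem.mpr (Ideal.mem_span_singleton_self _)
  have hvs : ((v : ℤ) : B ⧸ I) * ((s : ℕ) : B ⧸ I) = 1 := by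
    have h1 : ((u * t + v * s : ℤ) : B ⧸ I) = 1 := by rw [huv]; simp
    push_cast at h1
    have h2 : ((t : ℕ) : B ⧸ I) = 0 := by rw [← ht0, map_natCast]
    rw [h2, mul_zero, zero_add] at h1
    exact h1
  have hint : Algebra.IsIntegral ℤ (B ⧸ I) := by
    constructor
    intro x
    obtain ⟨y, rfl⟩ := Ideal.Quotient.mk_surjective x
    obtain ⟨k, hk⟩ := sInt_adjoin s S hS y y.2
    have h1 : IsIntegral ℤ (((s : ℕ) : B) ^ k * y) := by
      have h2 : (B.val) (((s : ℕ) : B) ^ k * y) = (s : ℝ) ^ k * (y : ℝ) := by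
        rw [map_mul, map_pow, map_natCast]; rfl
      rw [← isIntegral_algHom_iff B.val Subtype.val_injective, h2]
      exact hk
    have h3 : IsIntegral ℤ ((Ideal.Quotient.mk I) (((s : ℕ) : B) ^ k * y)) :=
      h1.map (Ideal.Quotient.mkₐ ℤ I)
    have h4 : (Ideal.Quotient.mk I) y = ((v : ℤ) : B ⧸ I) ^ k *
        (Ideal.Quotient.mk I) (((s : ℕ) : B) ^ k * y) := by
      rw [map_mul, map_pow, map_natCast, ← mul_assoc, ← mul_pow, hvs, one_pow, one_mul]
    rw [h4]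
    refine IsIntegral.mul (IsIntegral.pow ?_ k) h3
    exact isIntegral_algebraMap (R := ℤ) (A := B ⧸ I) (x := v)
  have hfin : Module.Finite ℤ (B ⧸ I) := Algebra.IsIntegral.finite
  apply Module.finite_of_fg_torsion
  intro x
  refine ⟨⟨(t : ℤ), mem_nonZeroDivisors_of_ne_zero (by exact_mod_cast ht.ne')⟩, ?_⟩
  change ((t : ℤ)) • x = 0
  rw [zsmul_eq_mul]
  have h2 : (((t : ℤ)) : B ⧸ I) = 0 := by
    rw [Int.cast_natCast, ← ht0, map_natCast]
  rw [h2, zero_mul]

include hS hs hS' in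
/-- every nonzero element divides a positive integer prime to `s` -/
theorem exists_nat_dvd (x : ℝ) (hx : x ∈ Algebra.adjoin ℤ (S : Set ℝ)) (hx0 : x ≠ 0) :
    ∃ c : ℕ, 0 < c ∧ Nat.Coprime c s ∧ ∃ y ∈ Algebra.adjoin ℤ (S : Set ℝ),
      (c : ℝ) = x * y := by
  set B := Algebra.adjoin ℤ (S : Set ℝ) with hB
  have hsR : (s : ℝ) ≠ 0 := by positivity
  have hinv : ((s : ℝ)⁻¹) ∈ B := Algebra.subset_adjoin hS'
  -- some positive integer
  have h0 : ∃ c : ℕ, 0 < c ∧ ∃ y ∈ B, (c : ℝ) = x * y := by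
    obtain ⟨k, hk⟩ := sInt_adjoin s S hS x hx
    let x' : B := ⟨(s : ℝ) ^ k * x, B.mul_mem (B.pow_mem (by exact_mod_cast B.natCast_mem s) k) hx⟩
    have hx'0 : x' ≠ 0 := by
      intro h
      have : (s : ℝ) ^ k * x = 0 := congrArg Subtype.val h
      rcases mul_eq_zero.mp this with h1 | h1
      · exact pow_ne_zero k hsR h1
      · exact hx0 h1
    have hint : IsIntegral ℤ x' := by
      rw [← isIntegral_algHom_iff B.val Subtype.val_injective]
      exact hk
    have hne := Ideal.comap_ne_bot_of_integral_mem (R := ℤ) (I := Ideal.span {x'}) hx'0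
      (Ideal.mem_span_singleton_self _) hint
    obtain ⟨c, hc, hc0⟩ := Submodule.exists_mem_ne_zero_of_ne_bot hne
    rw [Ideal.mem_comap, Ideal.mem_span_singleton] at hc
    obtain ⟨y, hy⟩ := hc
    have hy' : (c : ℝ) = ((s : ℝ) ^ k * x) * (y : ℝ) := by
      have := congrArg Subtype.val hy
      simpa using this
    rcases lt_or_gt_of_ne hc0 with h | h
    · refine ⟨c.natAbs, Int.natAbs_pos.mpr hc0, -((s : ℝ) ^ k * y), ?_, ?_⟩
      · exact B.neg_mem (B.mul_mem (B.pow_mem (by exact_mod_cast B.natCast_mem s) k) y.2)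
      · have h1 : ((c.natAbs : ℤ) : ℝ) = -(c : ℝ) := by
          have : (c.natAbs : ℤ) = -c := by rw [Int.natCast_natAbs]; exact abs_of_neg h
          rw [this]; push_cast; ring
        have h2 : (c.natAbs : ℝ) = ((c.natAbs : ℤ) : ℝ) := by simp
        rw [h2, h1, hy']; ring
    · refine ⟨c.natAbs, Int.natAbs_pos.mpr hc0, (s : ℝ) ^ k * y, ?_, ?_⟩
      · exact B.mul_mem (B.pow_mem (by exact_mod_cast B.natCast_mem s) k) y.2
      · have h1 : ((c.natAbs : ℤ) : ℝ) = (c : ℝ) := by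
          have : (c.natAbs : ℤ) = c := by rw [Int.natCast_natAbs]; exact abs_of_pos h
          rw [this]
        have h2 : (c.natAbs : ℝ) = ((c.natAbs : ℤ) : ℝ) := by simp
        rw [h2, h1, hy']; ring
  obtain ⟨c, hc, y, hy, hcy⟩ := h0
  -- remove the primes dividing s
  have key : ∀ n : ℕ, ∀ c : ℕ, c ≤ n → 0 < c → (∃ y ∈ B, (c : ℝ) = x * y) →
      ∃ c : ℕ, 0 < c ∧ Nat.Coprime c s ∧ ∃ y ∈ B, (c : ℝ) = x * y := by
    intro n
    induction n with
    | zero => intro c h1 h2; omega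
    | succ n ih =>
      intro c h1 h2 h3
      by_cases hcs : Nat.Coprime c s
      · exact ⟨c, h2, hcs, h3⟩
      · obtain ⟨p, hp, hpc, hps⟩ := Nat.Prime.not_coprime_iff_dvd.mp hcs
        obtain ⟨c', rfl⟩ := hpc
        obtain ⟨s', hs'⟩ := hps
        obtain ⟨y, hy, hcy⟩ := h3
        have hc' : 0 < c' := by
          rcases Nat.eq_zero_or_pos c' with h0 | h0
          · rw [h0, mul_zero] at h2; omega
          · exact h0
        have hp2 := hp.two_le
        have hlt : c' ≤ n := by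
          have : 2 * c' ≤ p * c' := Nat.mul_le_mul_right _ hp2
          omega
        refine ih c' hlt hc' ⟨(s' : ℝ) * (s : ℝ)⁻¹ * y, ?_, ?_⟩
        · exact B.mul_mem (B.mul_mem (by exact_mod_cast B.natCast_mem s') hinv) hy
        · have hpR : (p : ℝ) ≠ 0 := by
            have := hp.pos; positivity
          have h5 : (s : ℝ) = p * s' := by exact_mod_cast hs'
          have hs'0 : (s' : ℝ) ≠ 0 := by
            intro h; rw [h, mul_zero] at h5; exact hsR h5
          have h6 : ((s' : ℝ)) * (s : ℝ)⁻¹ = (p : ℝ)⁻¹ := by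
            rw [h5]; field_simp
          push_cast at hcy
          have h7 : (c' : ℝ) = (p : ℝ)⁻¹ * (x * y) := by
            rw [← hcy]; field_simp
          rw [h6, h7]; ring
  exact key c c le_rfl hc ⟨y, hy, hcy⟩

end

end Pool.Agent.CuspCov
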